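import Pool.Agent.W2helper2.LL.BJStm
import Pool.Agent.W2helper44.LL.FR

/-!
# Project LL, piece E4: two independent minimal vectors form a basis
-/

set_option autoImplicit false

noncomputable section

namespace Pool.Agent.W2helper6.LL

open IsDedekindDomain Polynomial WithZero
open Matrix hiding vec
open Pool.Agent.W2helper63.LL Pool.Agent.W2helper2.LL
open scoped Classical

theorem v_io {p : R} (hp : p ≠ 0) : Valued.v (io p) = exp (p.natDegree : ℤ) := by
  change Valued.v (algebraMap K Kinf (algebraMap R K p)) = _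
  rw [FR.v_inf]
  exact RatFunc.inftyValuation.polynomial (ZMod 2) hp

theorem v_io_lt {p q : R} (hq : q ≠ 0) (h : p.degree < q.degree) :
    Valued.v (io p) < Valued.v (io q) := by
  rw [v_io hq]
  by_cases hp : p = 0
  · rw [hp, map_zero, map_zero]
    exact exp_pos
  · rw [v_io hp, exp_lt_exp]
    exact_mod_cast natDegree_lt_natDegree hp h

theorem vec_apply (ξ : Fin 2 → R) (g : GL (Fin 2) Kinf) (j : Fin 2) :
    vec ξ g j = io (ξ 0) * g.1 0 j + io (ξ 1) * g.1 1 j := by
  simp [vec, Matrix.vecMul, dotProduct, Fin.sum_univ_two]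

theorem nm_lt {x : Fin 2 → Kinf} {c : WithZero (Multiplicative ℤ)}
    (h : ∀ j, Valued.v (x j) < c) : nm x < c := max_lt (h 0) (h 1)

theorem le_nm (x : Fin 2 → Kinf) (j : Fin 2) : Valued.v (x j) ≤ nm x := by
  fin_cases j
  · exact le_max_left _ _
  · exact le_max_right _ _

theorem e4 : S_E4 := by
  intro g m hm ξ η hξ hη hdet
  set Δ : R := ξ 0 * η 1 - ξ 1 * η 0 with hΔ
  have hdet2 : vec ξ g 0 * vec η g 1 - vec ξ g 1 * vec η g 0 = io Δ * g.1.det := by
    rw [Matrix.det_fin_two, hΔ, map_sub, map_mul, map_mul]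
    simp only [vec_apply]
    ring
  rw [hdet2, map_mul] at hdet
  have hΔ0 : Δ ≠ 0 := by
    intro h
    rw [h, map_zero, map_zero, zero_mul] at hdet
    exact exp_ne_zero hdet.symm
  -- every vector is a combination of `ξ` and `η`
  have key : ∀ ζ : Fin 2 → R, ∃ a b : R, ∀ i, ζ i = a * ξ i + b * η i := by
    intro ζ
    set α : R := ζ 0 * η 1 - ζ 1 * η 0 with hα
    set β : R := ξ 0 * ζ 1 - ξ 1 * ζ 0 with hβ
    have hα2 : Δ * (α / Δ) + α % Δ = α := EuclideanDomain.div_add_mod α Δ
    have hβ2 : Δ * (β / Δ) + β % Δ = β := EuclideanDomain.div_add_mod β Δ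
    have hαl : Valued.v (io (α % Δ)) < Valued.v (io Δ) :=
      v_io_lt hΔ0 (EuclideanDomain.mod_lt α hΔ0)
    have hβl : Valued.v (io (β % Δ)) < Valued.v (io Δ) :=
      v_io_lt hΔ0 (EuclideanDomain.mod_lt β hΔ0)
    generalize α / Δ = a at hα2
    generalize β / Δ = b at hβ2
    generalize α % Δ = a0 at hα2 hαl
    generalize β % Δ = b0 at hβ2 hβl
    refine ⟨a, b, ?_⟩
    set ζ' : Fin 2 → R := fun i => ζ i - (a * ξ i + b * η i) with hζ'
    have h1 : ∀ i, Δ * ζ' i = a0 * ξ i + b0 * η i := by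
      intro i
      have h2 : Δ * ζ i = α * ξ i + β * η i := by
        rw [hΔ, hα, hβ]
        fin_cases i
        · change (ξ 0 * η 1 - ξ 1 * η 0) * ζ 0 =
            (ζ 0 * η 1 - ζ 1 * η 0) * ξ 0 + (ξ 0 * ζ 1 - ξ 1 * ζ 0) * η 0
          ring
        · change (ξ 0 * η 1 - ξ 1 * η 0) * ζ 1 =
            (ζ 0 * η 1 - ζ 1 * η 0) * ξ 1 + (ξ 0 * ζ 1 - ξ 1 * ζ 0) * η 1
          ring
      simp only [hζ', mul_sub, h2]
      rw [← hα2, ← hβ2]
      ring
    have hv : ∀ j, io Δ * vec ζ' g j = io a0 * vec ξ g j + io b0 * vec η g j := by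
      intro j
      have e0 := congrArg io (h1 0)
      have e1 := congrArg io (h1 1)
      simp only [map_mul, map_add] at e0 e1
      simp only [vec_apply]
      linear_combination (g.1 0 j) * e0 + (g.1 1 j) * e1
    have hΔv : 0 < Valued.v (io Δ) := by
      rw [v_io hΔ0]
      exact exp_pos
    have hsmall : nm (vec ζ' g) < exp m := by
      refine nm_lt fun j => ?_
      have h3 : Valued.v (io Δ) * Valued.v (vec ζ' g j) < Valued.v (io Δ) * exp m := by
        rw [← map_mul, hv j]
        refine lt_of_le_of_lt (Valued.v.map_add _ _) (max_lt ?_ ?_)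
        · rw [map_mul]
          exact lt_of_le_of_lt (mul_le_mul' le_rfl ((le_nm _ j).trans hξ.le))
            (mul_lt_mul_of_pos_right hαl exp_pos)
        · rw [map_mul]
          exact lt_of_le_of_lt (mul_le_mul' le_rfl ((le_nm _ j).trans hη.le))
            (mul_lt_mul_of_pos_right hβl exp_pos)
      exact lt_of_mul_lt_mul_left' h3
    by_contra hne
    have hζ0 : ζ' ≠ 0 := by
      intro h
      apply hne
      intro i
      have := congrFun h i
      exact sub_eq_zero.1 this
    exact absurd (hm.2 ζ' hζ0) (not_le.2 hsmall)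
  obtain ⟨a, b, h0⟩ := key ![1, 0]
  obtain ⟨c, d, h1⟩ := key ![0, 1]
  have e1 := h0 0
  have e2 := h0 1
  have e3 := h1 0
  have e4 := h1 1
  simp only [Matrix.cons_val_zero, Matrix.cons_val_one] at e1 e2 e3 e4
  have hu : (a * d - b * c) * Δ = 1 := by
    rw [hΔ]
    linear_combination (-(c * ξ 1 + d * η 1)) * e1 - e4 + (c * ξ 0 + d * η 0) * e2
  have hun : IsUnit Δ := IsUnit.of_mul_eq_one_right _ hu
  rw [v_io hΔ0, natDegree_eq_zero_of_isUnit hun, Nat.cast_zero, exp_zero, one_mul] at hdet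
  exact hdet

end Pool.Agent.W2helper6.LL
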